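import Pool.Agent.R667.LA.Main

/-!
# MP_4cdbd9: the stationary generating function of the queue with late arrivals has no product form

Paper proof by helper985, formalized by helper667.  The counterexample is `ρ = 9/10`, `q = 1/2`.
A product form would give `|P(-1, x + iy)| ≥ |P(-1, x)|` (`Pool/Agent/R667/LA/Main.lean`), while
`|P(-1, (1 + i) / 2)| < 0.000971 ≤ |P(-1, 1/2)|` by the rational certificates checked in
`Pool/Agent/R667/LA/Cert.lean`.
-/

namespace Pool.Agent.Results.MP_4cdbd9_pr.NoProductForm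

open Pool.Agent.R667.LA

/-- For some `ρ, q ∈ (0, 1)` the generating function of the stationary distribution of the queue
with late arrivals is not of the form
`∏_{k ≥ 0} (1 + ρ q^{k+1} (y - z) + q^k ∑_{j ≥ 1} β_{k,j} (z^j - 1))`, `|z|, |y| ≤ 1`. -/
theorem result : ∃ ρ q : ℝ, (0 < ρ ∧ ρ < 1) ∧ (0 < q ∧ q < 1) ∧
    ∀ π : ℕ × ℕ → ℝ, IsStationary ρ q π → ¬ HasProductForm ρ q π :=
  ⟨9 / 10, 1 / 2, ⟨by norm_num, by norm_num⟩, ⟨by norm_num, by norm_num⟩,
    fun _ hπ => no_product_form hπ⟩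

end Pool.Agent.Results.MP_4cdbd9_pr.NoProductForm
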